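import Pool.Agent.Helper24.DS.Final
import Pool.Agent.Helper19.RP.UEx
import Pool.Agent.Helper19.RP.CFin
import Pool.Agent.Helper28.FST.Main
import Pool.Agent.Helper57.MCd.All

/-!
Unit intervals in dimension spectra of polynomial graphs (full positive answer).

Universal prefix-free machines in the sense of `IsUniversal` exist: `exists_universal` in
`Pool/Agent/Helper19/RP/UEx.lean`.
-/

set_option autoImplicit false

namespace Pool.Agent.Results.MP_795d31_lc.UnitInterval

open Pool.Agent.Helper24.DS

theorem result (U : Mach) (hU : IsUniversal U) (A : Polynomial ℝ)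
    (ha : 1 ≤ dim U (fun i : Fin (A.natDegree + 1) => A.coeff i)) :
    Set.Icc 1 2 ⊆ spectrum U A := by
  intro t ht
  have h2 : t ≠ ⊤ := ne_top_of_le_ne_top (by simp) ht.2
  have h3 : ENNReal.ofReal t.toReal = t := ENNReal.ofReal_toReal h2
  rw [← h3]
  refine spectrum_of_KEYG hU A (fun B => ?_) ha t.toReal ?_ ?_
  · exact Pool.Agent.Helper28.FST.KEYG_of_PropA (A.natDegree + 1) B (by omega)
      (Pool.Agent.Helper19.RP.propA_of_MC (A.natDegree + 1) (by omega)
        (fun k hk _ => Pool.Agent.Helper57.MCd.MC_all k hk))
  · have := ENNReal.toReal_mono h2 ht.1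
    simpa using this
  · have := ENNReal.toReal_mono (by simp) ht.2
    simpa using this

end Pool.Agent.Results.MP_795d31_lc.UnitInterval
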